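import Pool.Agent.Run7.h992.OM.Defs
import Pool.Agent.R970.WM.HS

/-!
# Project OM, piece K6 (helper360): the compact operator

`exists_eig_of`: the other pieces are hypotheses.
-/

set_option autoImplicit false

open UpperHalfPlane MeasureTheory Complex Filter Topology
open scoped MatrixGroups

namespace Run7.h360.OM

open Run7.h992.OM

/-- nonempty open sets have positive volume -/
theorem volume_open_ne_zero {U : Set ℍ} (hU : IsOpen U) (hne : U.Nonempty) :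
    (volume : Measure ℍ) U ≠ 0 := by
  have hopen : IsOpen ((↑) '' U : Set ℂ) := isOpenEmbedding_coe.isOpenMap U hU
  have hne' : ((↑) '' U : Set ℂ).Nonempty := hne.image _
  rw [volume_eq_lintegral]
  have hmeas : Measurable fun z : ℂ => (((1 / ‖z.im‖₊) ^ 2 : NNReal) : ENNReal) := by
    fun_prop
  intro h0
  rw [setLIntegral_eq_zero_iff hopen.measurableSet hmeas] at h0
  have h1 : (volume : Measure ℂ) ((↑) '' U : Set ℂ) = 0 := by
    have h2 : ∀ᵐ z : ℂ ∂volume, z ∉ ((↑) '' U : Set ℂ) := by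
      filter_upwards [h0] with z hz hzU
      have h3 := hz hzU
      obtain ⟨w, _, rfl⟩ := hzU
      have h4 : (w : ℂ).im ≠ 0 := w.im_ne_zero
      have h5 : ((1 / ‖(w : ℂ).im‖₊) ^ 2 : NNReal) ≠ 0 := by
        apply pow_ne_zero
        apply one_div_ne_zero
        simpa using h4
      exact h5 (by exact_mod_cast h3)
    rw [ae_iff] at h2
    simp only [not_not] at h2
    exact h2
  exact (hopen.measure_pos volume hne').ne' h1

theorem measurableSet_Sg : MeasurableSet Sg := by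
  have h1 : Measurable fun z : ℍ => |z.re| := by
    have : Continuous fun z : ℍ => |z.re| := UpperHalfPlane.continuous_re.abs
    exact this.measurable
  have h2 : Measurable fun z : ℍ => z.im := UpperHalfPlane.continuous_im.measurable
  exact (measurableSet_le h1 measurable_const).inter (measurableSet_le measurable_const h2)

theorem exists_smul_mem_Sg (z : ℍ) : ∃ g : SL(2, ℤ), g • z ∈ Sg := by
  obtain ⟨g, hg⟩ := ModularGroup.exists_smul_mem_fd z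
  refine ⟨g, hg.2, ?_⟩
  have h := ModularGroup.three_le_four_mul_im_sq_of_mem_fd hg
  by_contra hcon
  push Not at hcon
  have h0 : 0 < (g • z).im := (g • z).im_pos
  nlinarith

theorem OddInv.add {u v : ℍ → ℂ} (hu : OddInv u) (hv : OddInv v) : OddInv (u + v) :=
  ⟨fun g z => by rw [Pi.add_apply, Pi.add_apply, hu.inv g z, hv.inv g z],
    fun z => by rw [Pi.add_apply, Pi.add_apply, hu.odd z, hv.odd z]; ring⟩

theorem OddInv.smul (c : ℂ) {u : ℍ → ℂ} (hu : OddInv u) : OddInv (c • u) :=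
  ⟨fun g z => by rw [Pi.smul_apply, Pi.smul_apply, hu.inv g z],
    fun z => by rw [Pi.smul_apply, Pi.smul_apply, hu.odd z, smul_neg]⟩

theorem OddInv.zero : OddInv (0 : ℍ → ℂ) := ⟨fun g z => rfl, fun z => by simp⟩

section

variable {s : ℕ} (hint : ∀ z : ℍ, Integrable (fun w => k s z w))

include hint

theorem integrable_k_mul {u : ℍ → ℂ} (hm : Measurable u) (hb : Bd u) (z : ℍ) :
    Integrable (fun w => (k s z w : ℂ) * u w) := by
  obtain ⟨C, hC⟩ := hb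
  exact ((hint z).ofReal).mul_bdd (c := C) hm.aestronglyMeasurable (Eventually.of_forall hC)

theorem K_add {u v : ℍ → ℂ} (hmu : Measurable u) (hbu : Bd u) (hmv : Measurable v) (hbv : Bd v)
    (z : ℍ) : K s (u + v) z = K s u z + K s v z := by
  unfold K
  rw [← integral_add (integrable_k_mul hint hmu hbu z) (integrable_k_mul hint hmv hbv z)]
  congr 1
  funext w
  simp [mul_add]

omit hint in
theorem K_smul' (c : ℂ) (u : ℍ → ℂ) (z : ℍ) : K s (c • u) z = c * K s u z := by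
  unfold K
  rw [← integral_const_mul]
  congr 1
  funext w
  simp
  ring

/-- the space of the functions `IsEig s m` -/
noncomputable def ES (m : ℂ) : Submodule ℂ (ℍ → ℂ) where
  carrier := {u | IsEig s m u}
  add_mem' := by
    intro u v hu hv
    refine ⟨OddInv.add hu.oi hv.oi, hu.meas.add hv.meas, ?_, fun z => ?_⟩
    · obtain ⟨C, hC⟩ := hu.bd
      obtain ⟨D, hD⟩ := hv.bd
      exact ⟨C + D, fun z => (norm_add_le _ _).trans (add_le_add (hC z) (hD z))⟩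
    · rw [K_add hint hu.meas hu.bd hv.meas hv.bd, hu.eig, hv.eig]
      simp
      ring
  zero_mem' := by
    refine ⟨OddInv.zero, measurable_const, ⟨0, fun z => by simp⟩, fun z => ?_⟩
    simp [K]
  smul_mem' := by
    intro c u hu
    refine ⟨OddInv.smul c hu.oi, hu.meas.const_smul c, ?_, fun z => ?_⟩
    · obtain ⟨C, hC⟩ := hu.bd
      exact ⟨‖c‖ * C, fun z => by
        simp only [Pi.smul_apply, smul_eq_mul, norm_mul]
        exact mul_le_mul_of_nonneg_left (hC z) (norm_nonneg _)⟩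
    · rw [K_smul', hu.eig]
      simp
      ring

end

/-- the cut off kernel -/
noncomputable def ker (s : ℕ) (c : ℝ) (p : ℍ × ℍ) : ℂ :=
  (Sg ×ˢ Sg).indicator (fun p => ((c * kap s p.1 p.2 : ℝ) : ℂ)) p

theorem ker_meas {s : ℕ} (hc : Continuous fun p : ℍ × ℍ => kap s p.1 p.2) (c : ℝ) :
    Measurable (ker s c) := by
  have h : Continuous fun p : ℍ × ℍ => ((c * kap s p.1 p.2 : ℝ) : ℂ) :=
    Complex.continuous_ofReal.comp (continuous_const.mul hc)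
  exact h.measurable.indicator (measurableSet_Sg.prod measurableSet_Sg)

theorem ker_bdd {s : ℕ} {C c : ℝ} (hc0 : 0 ≤ c) (hC : ∀ z ∈ Sg, ∀ w ∈ Sg, |kap s z w| ≤ C) :
    ∃ D : ℝ, ∀ p, ‖ker s c p‖ ≤ D := by
  refine ⟨max (c * C) 0, fun p => ?_⟩
  unfold ker
  by_cases hp : p ∈ Sg ×ˢ Sg
  · rw [Set.indicator_of_mem hp, Complex.norm_real, Real.norm_eq_abs, abs_mul, abs_of_nonneg hc0]
    exact (mul_le_mul_of_nonneg_left (hC _ hp.1 _ hp.2) hc0).trans (le_max_left _ _)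
  · rw [Set.indicator_of_notMem hp]
    simp

theorem ker_symm {s : ℕ} (hsym : ∀ z w : ℍ, kap s z w = kap s w z) (c : ℝ) (z w : ℍ) :
    ker s c (z, w) = ker s c (w, z) := by
  unfold ker
  by_cases hz : z ∈ Sg <;> by_cases hw : w ∈ Sg <;>
    simp [Set.indicator, hz, hw, hsym z w]

theorem ker_conj {s : ℕ} (c : ℝ) (p : ℍ × ℍ) :
    (starRingEnd ℂ) (ker s c p) = ker s c p := by
  unfold ker
  by_cases hp : p ∈ Sg ×ˢ Sg
  · rw [Set.indicator_of_mem hp]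
    exact Complex.conj_ofReal _
  · rw [Set.indicator_of_notMem hp]
    simp

/-- integral operators with a bounded hermitian kernel are symmetric -/
theorem op_symm {Z : Type} [MeasurableSpace Z] (μ : Measure Z) [IsProbabilityMeasure μ]
    (κ : Z × Z → ℂ) (hm : Measurable κ) (hb : ∃ C : ℝ, ∀ p, ‖κ p‖ ≤ C)
    (hs : ∀ z w, (starRingEnd ℂ) (κ (z, w)) = κ (w, z))
    (A : Lp ℂ 2 μ →L[ℂ] Lp ℂ 2 μ)
    (hA : ∀ u : Lp ℂ 2 μ, ∀ᵐ z ∂μ, (A u : Z → ℂ) z = ∫ z', κ (z, z') * u z' ∂μ) :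
    (A : Lp ℂ 2 μ →ₗ[ℂ] Lp ℂ 2 μ).IsSymmetric := by
  intro f g
  obtain ⟨C, hC⟩ := hb
  change inner ℂ (A f) g = inner ℂ f (A g)
  rw [L2.inner_def, L2.inner_def]
  have hf : Integrable (f : Z → ℂ) μ := (Lp.memLp f).integrable (by norm_num)
  have hg : Integrable (g : Z → ℂ) μ := (Lp.memLp g).integrable (by norm_num)
  have e1 : ∫ z, inner ℂ ((A f : Z → ℂ) z) ((g : Z → ℂ) z) ∂μ =
      ∫ z, ∫ w, κ (w, z) * ((starRingEnd ℂ) ((f : Z → ℂ) w) * (g : Z → ℂ) z) ∂μ ∂μ := by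
    apply integral_congr_ae
    filter_upwards [hA f] with z hz
    rw [hz, RCLike.inner_apply, ← integral_conj, ← integral_const_mul]
    congr 1
    funext w
    rw [map_mul, hs z w]
    ring
  have e2 : ∫ z, inner ℂ ((f : Z → ℂ) z) ((A g : Z → ℂ) z) ∂μ =
      ∫ w, ∫ z, κ (w, z) * ((starRingEnd ℂ) ((f : Z → ℂ) w) * (g : Z → ℂ) z) ∂μ ∂μ := by
    apply integral_congr_ae
    filter_upwards [hA g] with z hz
    rw [hz, RCLike.inner_apply, ← integral_mul_const]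
    congr 1
    funext w
    ring
  rw [e1, e2]
  apply integral_integral_swap
  have hprod : Integrable (fun p : Z × Z => (starRingEnd ℂ) ((f : Z → ℂ) p.2) * (g : Z → ℂ) p.1)
      (μ.prod μ) := by
    have h1 : Integrable (fun z => (starRingEnd ℂ) ((f : Z → ℂ) z)) μ :=
      hf.congr' ((Complex.continuous_conj.comp_aestronglyMeasurable hf.1))
        (Eventually.of_forall fun z => by simp)
    have h2 := hg.mul_prod h1
    refine h2.congr (Eventually.of_forall fun p => ?_)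
    simp only
    ring
  have hk2 : AEStronglyMeasurable (fun p : Z × Z => κ (p.2, p.1)) (μ.prod μ) :=
    (hm.comp measurable_swap).aestronglyMeasurable
  exact hprod.bdd_mul (c := C) hk2 (Eventually.of_forall fun p => hC _)


section main

variable {s : ℕ} {μ ν : Measure ℍ} [IsProbabilityMeasure μ] {c : ℝ} {C : ℝ}

theorem ker_val (hIνμ : ∀ f : ℍ → ℂ, ∫ w, f w ∂ν = c * ∫ w, f w ∂μ) (hSgμ : ∀ᵐ w ∂μ, w ∈ Sg)
    (f : ℍ → ℂ) (z : ℍ) (hz : z ∈ Sg) :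
    ∫ w, ker s c (z, w) * f w ∂μ = ∫ w, (kap s z w : ℂ) * f w ∂ν := by
  rw [hIνμ, ← integral_const_mul]
  apply integral_congr_ae
  filter_upwards [hSgμ] with w hw
  unfold ker
  rw [Set.indicator_of_mem (show (z, w) ∈ Sg ×ˢ Sg from ⟨hz, hw⟩)]
  push_cast
  ring

theorem exists_nhd (hcont : Continuous fun p : ℍ × ℍ => kap s p.1 p.2) {z0 : ℍ}
    (hz1 : |z0.re| < 1 / 2) (hz2 : 1 / 2 < z0.im) (hpos : 0 < kap s z0 z0) :
    ∃ U : Set ℍ, IsOpen U ∧ z0 ∈ U ∧ U ⊆ Sg ∧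
      ∀ z ∈ U, ∀ w ∈ U, kap s z0 z0 / 2 < kap s z w := by
  have h1 : ∀ᶠ p : ℍ × ℍ in 𝓝 (z0, z0), kap s z0 z0 / 2 < kap s p.1 p.2 :=
    hcont.continuousAt.eventually (lt_mem_nhds (by simpa using half_lt_self hpos))
  rw [nhds_prod_eq] at h1
  obtain ⟨V, hV, hVk⟩ := Filter.eventually_prod_self_iff'.mp h1
  obtain ⟨V', hV'V, hV'o, hz0V'⟩ := mem_nhds_iff.mp hV
  have hO : IsOpen {z : ℍ | |z.re| < 1 / 2 ∧ 1 / 2 < z.im} :=
    (isOpen_lt UpperHalfPlane.continuous_re.abs continuous_const).inter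
      (isOpen_lt continuous_const UpperHalfPlane.continuous_im)
  refine ⟨V' ∩ {z : ℍ | |z.re| < 1 / 2 ∧ 1 / 2 < z.im}, hV'o.inter hO, ⟨hz0V', hz1, hz2⟩,
    fun z hz => ⟨hz.2.1.le, hz.2.2.le⟩, fun z hz w hw => ?_⟩
  exact hVk z (hV'V hz.1) w (hV'V hw.1)

theorem op_ne_zero (hcont : Continuous fun p : ℍ × ℍ => kap s p.1 p.2)
    (hC : ∀ z ∈ Sg, ∀ w ∈ Sg, |kap s z w| ≤ C) (hc0 : 0 < c) (hSgμ : ∀ᵐ w ∂μ, w ∈ Sg)
    {U : Set ℍ} (hUo : IsOpen U) (hUS : U ⊆ Sg) {δ : ℝ} (hδ : 0 < δ)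
    (hUk : ∀ z ∈ U, ∀ w ∈ U, δ < kap s z w) (hUμ : μ U ≠ 0)
    {A : Lp ℂ 2 μ →L[ℂ] Lp ℂ 2 μ}
    (hA : ∀ u : Lp ℂ 2 μ, ∀ᵐ z ∂μ, (A u : ℍ → ℂ) z = ∫ z', ker s c (z, z') * u z' ∂μ) :
    A ≠ 0 := by
  intro hA0
  have hUm : MeasurableSet U := hUo.measurableSet
  set f : Lp ℂ 2 μ := indicatorConstLp 2 hUm (measure_ne_top μ U) (1 : ℂ) with hf
  have hf1 : ∀ᵐ w ∂μ, f w = U.indicator (fun _ => (1 : ℂ)) w := indicatorConstLp_coeFn
  have h1 : ∀ᵐ z ∂μ, ∫ w, ker s c (z, w) * f w ∂μ = 0 := by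
    filter_upwards [hA f, Lp.coeFn_zero ℂ 2 μ] with z hz h0
    rw [← hz, hA0]
    simp
  have h2 : ∃ z ∈ U, ∫ w, ker s c (z, w) * f w ∂μ = 0 := by
    by_contra hcon
    push Not at hcon
    apply hUμ
    have h3 : U ⊆ {z | ¬ ∫ w, ker s c (z, w) * f w ∂μ = 0} := fun z hz => hcon z hz
    exact measure_mono_null h3 (ae_iff.mp h1)
  obtain ⟨z, hz, hz0⟩ := h2
  have h4 : ∫ w, ker s c (z, w) * f w ∂μ = ((∫ w in U, c * kap s z w ∂μ : ℝ) : ℂ) := by
    rw [← integral_complex_ofReal, ← integral_indicator hUm]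
    apply integral_congr_ae
    filter_upwards [hf1, hSgμ] with w hw hwS
    rw [hw]
    unfold ker
    rw [Set.indicator_of_mem (show (z, w) ∈ Sg ×ˢ Sg from ⟨hUS hz, hwS⟩)]
    by_cases hwU : w ∈ U
    · simp [hwU]
    · simp [hwU]
  have h5 : c * δ * (μ U).toReal ≤ ∫ w in U, c * kap s z w ∂μ := by
    have h6 : ∫ w in U, c * δ ∂μ = c * δ * (μ U).toReal := by
      rw [setIntegral_const]
      simp [Measure.real]
      ring
    rw [← h6]
    apply setIntegral_mono_on (integrableOn_const (measure_ne_top μ U)) _ hUm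
    · intro w hw
      exact mul_le_mul_of_nonneg_left (hUk z hz w hw).le hc0.le
    · apply Integrable.mono' (g := fun _ => c * C) (integrableOn_const (measure_ne_top μ U))
      · have h9 : Continuous fun w : ℍ => c * kap s z w := by
          have h10 : Continuous fun w : ℍ => ((z, w) : ℍ × ℍ) := Continuous.prodMk_right z
          have h11 := hcont.comp h10
          simp only [Function.comp_def] at h11
          exact continuous_const.mul h11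
        exact h9.aestronglyMeasurable
      · rw [ae_restrict_iff' hUm]
        refine Eventually.of_forall fun w hw => ?_
        rw [Real.norm_eq_abs, abs_mul, abs_of_pos hc0]
        exact mul_le_mul_of_nonneg_left (hC z (hUS hz) w (hUS hw)) hc0.le
  have h7 : 0 < c * δ * (μ U).toReal :=
    mul_pos (mul_pos hc0 hδ) (ENNReal.toReal_pos hUμ (measure_ne_top μ U))
  rw [h4] at hz0
  have h8 : (∫ w in U, c * kap s z w ∂μ : ℝ) = 0 := by exact_mod_cast hz0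
  linarith

theorem exists_fun (hcont : Continuous fun p : ℍ × ℍ => kap s p.1 p.2)
    (hC : ∀ z ∈ Sg, ∀ w ∈ Sg, |kap s z w| ≤ C)
    (h_inv : ∀ (g : SL(2, ℤ)) (z w : ℍ), kap s (g • z) w = kap s z w)
    (h_odd : ∀ z w : ℍ, kap s (UpperHalfPlane.J • z) w = - kap s z w)
    (hSgμ : ∀ᵐ w ∂μ, w ∈ Sg) (hSgν : ∀ᵐ w ∂ν, w ∈ Sg)
    (hIνμ : ∀ f : ℍ → ℂ, ∫ w, f w ∂ν = c * ∫ w, f w ∂μ)
    (hint : ∀ f : ℍ → ℂ, Integrable f μ → Integrable f ν) [SFinite ν]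
    (hunf : ∀ u : ℍ → ℂ, OddInv u → Measurable u → Bd u → ∀ z,
        2 * K s u z = ∫ w, (kap s z w : ℂ) * u w ∂ν)
    {A : Lp ℂ 2 μ →L[ℂ] Lp ℂ 2 μ}
    (hA : ∀ u : Lp ℂ 2 μ, ∀ᵐ z ∂μ, (A u : ℍ → ℂ) z = ∫ z', ker s c (z, z') * u z' ∂μ)
    {l : ℂ} (hl0 : l ≠ 0) {f : Lp ℂ 2 μ} (hAf : A f = l • f) (hf0 : f ≠ 0) :
    ∃ u : ℍ → ℂ, u ≠ 0 ∧ IsEig s (l / 2) u := by
  set u : ℍ → ℂ := fun z => l⁻¹ * ∫ w, (kap s z w : ℂ) * f w ∂ν with hu
  have hfi : Integrable (f : ℍ → ℂ) μ := (Lp.memLp f).integrable (by norm_num)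
  have hfν : Integrable (f : ℍ → ℂ) ν := hint _ hfi
  have hoi : OddInv u := by
    constructor
    · intro g z
      simp only [hu]
      congr 2
      funext w
      rw [h_inv]
    · intro z
      simp only [hu]
      rw [← mul_neg, ← integral_neg]
      congr 2
      funext w
      rw [h_odd]
      push_cast
      ring
  have hmeas : Measurable u := by
    have h1 : StronglyMeasurable (fun p : ℍ × ℍ => (kap s p.1 p.2 : ℂ) * f p.2) := by
      apply StronglyMeasurable.mul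
      · exact (Complex.continuous_ofReal.comp hcont).stronglyMeasurable
      · exact (Lp.stronglyMeasurable f).comp_measurable measurable_snd
    exact (h1.integral_prod_right'.measurable).const_mul _
  have hbd : Bd u := by
    refine ⟨‖l⁻¹‖ * ∫ w, C * ‖(f : ℍ → ℂ) w‖ ∂ν, fun z => ?_⟩
    obtain ⟨g, hg⟩ := exists_smul_mem_Sg z
    rw [← hoi.inv g z]
    simp only [hu, norm_mul]
    apply mul_le_mul_of_nonneg_left _ (norm_nonneg _)
    apply norm_integral_le_of_norm_le (hfν.norm.const_mul C)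
    filter_upwards [hSgν] with w hw
    rw [norm_mul, Complex.norm_real, Real.norm_eq_abs]
    exact mul_le_mul_of_nonneg_right (hC _ hg _ hw) (norm_nonneg _)
  have huf : ∀ᵐ z ∂μ, u z = f z := by
    filter_upwards [hA f, hSgμ, Lp.coeFn_smul l f] with z hz hzS hsm
    rw [ker_val hIνμ hSgμ f z hzS, hAf, hsm] at hz
    simp only [hu]
    rw [← hz]
    simp only [Pi.smul_apply, smul_eq_mul]
    field_simp
  refine ⟨u, ?_, hoi, hmeas, hbd, fun z => ?_⟩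
  · intro h0
    apply hf0
    apply Lp.ext
    filter_upwards [huf, Lp.coeFn_zero ℂ 2 μ] with z hz h1
    rw [← hz, h0, h1]
  · have h1 := hunf u hoi hmeas hbd z
    have h2 : ∫ w, (kap s z w : ℂ) * u w ∂ν = ∫ w, (kap s z w : ℂ) * f w ∂ν := by
      rw [hIνμ, hIνμ]
      congr 1
      apply integral_congr_ae
      filter_upwards [huf] with w hw
      rw [hw]
    rw [h2] at h1
    have h3 : ∫ w, (kap s z w : ℂ) * f w ∂ν = l * u z := by
      simp only [hu]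
      rw [mul_inv_cancel_left₀ hl0]
    rw [h3] at h1
    rw [div_mul_eq_mul_div, eq_div_iff two_ne_zero, mul_comm, h1]

theorem fin_dim (hint : ∀ z : ℍ, Integrable (fun w => k s z w))
    (hSgμ : ∀ᵐ w ∂μ, w ∈ Sg)
    (hIνμ : ∀ f : ℍ → ℂ, ∫ w, f w ∂ν = c * ∫ w, f w ∂μ)
    (hunf : ∀ u : ℍ → ℂ, OddInv u → Measurable u → Bd u → ∀ z,
        2 * K s u z = ∫ w, (kap s z w : ℂ) * u w ∂ν)
    {A : Lp ℂ 2 μ →L[ℂ] Lp ℂ 2 μ}
    (hA : ∀ u : Lp ℂ 2 μ, ∀ᵐ z ∂μ, (A u : ℍ → ℂ) z = ∫ z', ker s c (z, z') * u z' ∂μ)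
    {l : ℂ} (hl0 : l ≠ 0)
    (hfd : FiniteDimensional ℂ (Module.End.eigenspace (A : Lp ℂ 2 μ →ₗ[ℂ] Lp ℂ 2 μ) l)) :
    FiniteDimensional ℂ (ES hint (l / 2)) := by
  have hmem : ∀ u : ES hint (l / 2), MemLp (u : ℍ → ℂ) 2 μ := by
    intro u
    obtain ⟨D, hD⟩ := u.2.bd
    exact MemLp.of_bound u.2.meas.aestronglyMeasurable D (Eventually.of_forall hD)
  let Φ : ES hint (l / 2) →ₗ[ℂ] Lp ℂ 2 μ :=
    { toFun := fun u => (hmem u).toLp (u : ℍ → ℂ)
      map_add' := fun u v => by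
        rw [← MemLp.toLp_add]
        rfl
      map_smul' := fun a u => by
        rw [RingHom.id_apply, ← MemLp.toLp_const_smul]
        rfl }
  have hΦ1 : ∀ u : ES hint (l / 2), ∀ᵐ w ∂μ, (Φ u : ℍ → ℂ) w = (u : ℍ → ℂ) w :=
    fun u => (hmem u).coeFn_toLp
  have hΦ : ∀ u, Φ u ∈ Module.End.eigenspace (A : Lp ℂ 2 μ →ₗ[ℂ] Lp ℂ 2 μ) l := by
    intro u
    rw [Module.End.mem_eigenspace_iff]
    apply Lp.ext
    filter_upwards [hΦ1 u, hA (Φ u), hSgμ, Lp.coeFn_smul l (Φ u)] with z hz1 hz2 hzS hsm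
    change (A (Φ u) : ℍ → ℂ) z = _
    rw [hz2, hsm, Pi.smul_apply, smul_eq_mul, hz1]
    have h3 : ∫ w, ker s c (z, w) * (Φ u : ℍ → ℂ) w ∂μ =
        ∫ w, ker s c (z, w) * (u : ℍ → ℂ) w ∂μ := by
      apply integral_congr_ae
      filter_upwards [hΦ1 u] with w hw
      rw [hw]
    rw [h3, ker_val hIνμ hSgμ _ z hzS, ← hunf u u.2.oi u.2.meas u.2.bd z, u.2.eig]
    ring
  let Ψ : ES hint (l / 2) →ₗ[ℂ] Module.End.eigenspace (A : Lp ℂ 2 μ →ₗ[ℂ] Lp ℂ 2 μ) l :=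
    Φ.codRestrict _ hΦ
  apply FiniteDimensional.of_injective Ψ
  rw [← LinearMap.ker_eq_bot, LinearMap.ker_eq_bot']
  intro u hu
  have h1 : Φ u = 0 := by
    have := congrArg Subtype.val hu
    simpa [Ψ] using this
  have h2 : ∀ᵐ w ∂μ, (u : ℍ → ℂ) w = 0 := by
    filter_upwards [hΦ1 u, Lp.coeFn_zero ℂ 2 μ] with w hw h0
    rw [← hw, h1, h0]
    rfl
  apply Subtype.ext
  funext z
  have h4 := hunf u u.2.oi u.2.meas u.2.bd z
  rw [u.2.eig, hIνμ] at h4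
  have h5 : ∫ w, (kap s z w : ℂ) * (u : ℍ → ℂ) w ∂μ = 0 := by
    rw [← integral_zero ℍ ℂ (μ := μ)]
    apply integral_congr_ae
    filter_upwards [h2] with w hw
    rw [hw, mul_zero]
  rw [h5, mul_zero] at h4
  have h6 : l * (u : ℍ → ℂ) z = 0 := by
    rw [← h4]
    ring
  simpa using (mul_eq_zero.mp h6).resolve_left hl0

end main

theorem exists_eig_of
    (h_int : ∀ {s : ℕ}, 2 ≤ s → ∀ z : ℍ, Integrable (fun w => k s z w))
    (h_cont : ∀ {s : ℕ}, 6 ≤ s → Continuous fun p : ℍ × ℍ => kap s p.1 p.2)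
    (h_symm : ∀ {s : ℕ}, 6 ≤ s → ∀ z w : ℍ, kap s z w = kap s w z)
    (h_inv : ∀ {s : ℕ}, 6 ≤ s → ∀ (g : SL(2, ℤ)) (z w : ℍ), kap s (g • z) w = kap s z w)
    (h_odd : ∀ {s : ℕ}, 6 ≤ s → ∀ z w : ℍ, kap s (UpperHalfPlane.J • z) w = - kap s z w)
    (h_bdd : ∀ {s : ℕ}, 6 ≤ s → ∃ C : ℝ, ∀ z ∈ Sg, ∀ w ∈ Sg, |kap s z w| ≤ C)
    (h_ne : ∃ s : ℕ, 6 ≤ s ∧ ∃ z : ℍ, |z.re| < 1 / 2 ∧ 1 / 2 < z.im ∧ 0 < kap s z z)
    (h_unf : ∃ ν : Measure ℍ, IsFiniteMeasure ν ∧ ν Sgᶜ = 0 ∧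
      (∀ A : Set ℍ, MeasurableSet A → A ⊆ Sg → ν A = 0 → volume A = 0) ∧
      ∀ s : ℕ, 6 ≤ s → ∀ u : ℍ → ℂ, OddInv u → Measurable u → Bd u → ∀ z,
        2 * K s u z = ∫ w, (kap s z w : ℂ) * u w ∂ν) :
    ∃ s : ℕ, 6 ≤ s ∧ ∃ m : ℂ, m ≠ 0 ∧ (∃ u : ℍ → ℂ, u ≠ 0 ∧ IsEig s m u) ∧
      ∃ E : Submodule ℂ (ℍ → ℂ), FiniteDimensional ℂ E ∧ ∀ u, u ∈ E ↔ IsEig s m u := by
  obtain ⟨s, hs6, z0, hz1, hz2, hpos⟩ := h_ne
  obtain ⟨ν, hfin, hSgc, hac, hunf⟩ := h_unf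
  obtain ⟨C, hC⟩ := h_bdd hs6
  have hcont := h_cont hs6
  have hint := fun z => h_int (s := s) (by omega) z
  obtain ⟨U, hUo, hzU, hUS, hUk⟩ := exists_nhd hcont hz1 hz2 hpos
  have hUne : ν U ≠ 0 := fun h =>
    volume_open_ne_zero hUo ⟨z0, hzU⟩ (hac U hUo.measurableSet hUS h)
  have hν0 : ν Set.univ ≠ 0 := fun h => hUne (measure_mono_null (Set.subset_univ U) h)
  have hνt : ν Set.univ ≠ ⊤ := measure_ne_top ν _
  obtain ⟨μ, hμ⟩ : ∃ μ : Measure ℍ, μ = (ν Set.univ)⁻¹ • ν := ⟨_, rfl⟩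
  have hprob : IsProbabilityMeasure μ := ⟨by
    rw [hμ, Measure.smul_apply, smul_eq_mul, ENNReal.inv_mul_cancel hν0 hνt]⟩
  obtain ⟨c, hc⟩ : ∃ c : ℝ, c = (ν Set.univ).toReal := ⟨_, rfl⟩
  have hc0 : 0 < c := hc ▸ ENNReal.toReal_pos hν0 hνt
  have hνμ : ν = (ν Set.univ) • μ := by
    rw [hμ, smul_smul, ENNReal.mul_inv_cancel hν0 hνt, one_smul]
  have hμzero : ∀ A : Set ℍ, μ A = 0 ↔ ν A = 0 := by
    intro A
    rw [hμ, Measure.smul_apply, smul_eq_mul, mul_eq_zero]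
    constructor
    · rintro (h | h)
      · exact absurd h (ENNReal.inv_ne_zero.mpr hνt)
      · exact h
    · exact Or.inr
  have hSgμ : ∀ᵐ w ∂μ, w ∈ Sg := by
    rw [ae_iff]
    exact (hμzero _).mpr hSgc
  have hSgν : ∀ᵐ w ∂ν, w ∈ Sg := by
    rw [ae_iff]
    exact hSgc
  have hIνμ : ∀ f : ℍ → ℂ, ∫ w, f w ∂ν = c * ∫ w, f w ∂μ := by
    intro f
    conv_lhs => rw [hνμ]
    rw [integral_smul_measure, ← hc, Complex.real_smul]
  have hIi : ∀ f : ℍ → ℂ, Integrable f μ → Integrable f ν := by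
    intro f hf
    rw [hνμ]
    exact hf.smul_measure hνt
  have hkm := ker_meas hcont c
  have hkb := ker_bdd hc0.le hC
  obtain ⟨A, hAc, hA⟩ := R970.WM.hsOp ℍ μ (ker s c) hkm hkb
  have hsymm : (A : Lp ℂ 2 μ →ₗ[ℂ] Lp ℂ 2 μ).IsSymmetric :=
    op_symm μ (ker s c) hkm hkb (fun z w => by rw [ker_conj, ker_symm (h_symm hs6)]) A hA
  have hA0 : A ≠ 0 := op_ne_zero hcont hC hc0 hSgμ hUo hUS (half_pos hpos) hUk
    (fun h => hUne ((hμzero U).mp h)) hA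
  obtain ⟨l, hl, hl0⟩ : ∃ l : ℂ, Module.End.HasEigenvalue (A : Module.End ℂ (Lp ℂ 2 μ)) l ∧ l ≠ 0 := by
    by_contra hcon
    push Not at hcon
    exact hA0 ((ContinuousLinearMap.eq_zero_of_forall_hasEigenvalue_eq_zero hAc hsymm).mp hcon)
  have hfd : FiniteDimensional ℂ (Module.End.eigenspace (A : Lp ℂ 2 μ →ₗ[ℂ] Lp ℂ 2 μ) l) :=
    ContinuousLinearMap.finite_dimensional_eigenspace hAc l hl0
  obtain ⟨f, hf⟩ := hl.exists_hasEigenvector
  have hAf : A f = l • f := hf.apply_eq_smul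
  have hf0 : f ≠ 0 := hf.2
  exact ⟨s, hs6, l / 2, div_ne_zero hl0 two_ne_zero,
    exists_fun hcont hC (h_inv hs6) (h_odd hs6) hSgμ hSgν hIνμ hIi (hunf s hs6) hA hl0 hAf hf0,
    ES hint (l / 2), fin_dim hint hSgμ hIνμ (hunf s hs6) hA hl0 hfd, fun u => Iff.rfl⟩

end Run7.h360.OM
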